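import Pool.Agent.W536.LM.Stm

namespace W371.LM

open Polynomial W536.LM

theorem map_map_C {S T : Type} [CommRing S] [CommRing T] (f : S →+* T) (P : Par S) :
    (P.map (C : S →+* S[X])).map (mapRingHom f) = (P.map f).map (C : T →+* T[X]) := by
  simp [Par.map]

theorem t_NAT : S_NAT := by
  intro n
  induction n with
  | zero =>
    intro S T _ _ f P w w0
    simp only [G, E0, Par.map, map_sub, map_mul, map_add, map_one]
  | succ n ih =>
    intro S T _ _ f P w w0
    have h1 := ih S[X] T[X] (mapRingHom f) (P.map C) X (C w0)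
    rw [map_map_C] at h1
    simp only [coe_mapRingHom, map_X, map_C] at h1
    have h2 : (Ep P.L (P.m (4 - n)) (P.m (5 - n)) (P.e (4 - n)) w).map f =
        Ep (P.map f).L ((P.map f).m (4 - n)) ((P.map f).m (5 - n)) ((P.map f).e (4 - n)) (f w) := by
      simp [Ep, Par.map]
    have h3 := resultant_map_map (Ep P.L (P.m (4 - n)) (P.m (5 - n)) (P.e (4 - n)) w)
      (G n (P.map C) X (C w0)) 2 (2 ^ (n + 1)) f
    rw [h2, h1] at h3
    simp only [G]
    exact h3.symm

end W371.LM
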